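import Pool.Agent.T9h16.QL.Spec
import Pool.Agent.T9h75.QC.All

/-! (K) Circuits with tests, every density -/

set_option autoImplicit false

namespace Pool.Agent.T9h75.QL

open Finset
open Pool.Agent.PC34 (prob)
open Pool.Agent.T9h34 (graphInput)
open Pool.Agent.T9h34.P (gr)
open Pool.Agent.HC34 (srcs IsLevel DepthLE)
open Pool.Agent.T9h34.Q
open Pool.Agent.T9h16.QL
open Pool.Agent.T9h75.QC

theorem errL_nonneg (s q c w M : ℕ) {μ x δ : ℝ} (hμ : 0 ≤ μ) (hx : 0 ≤ x) (hδ : 0 ≤ δ) :
    0 ≤ errL s q c w M μ x δ := by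
  unfold errL wgtL
  positivity

theorem stAllL (hM : StMonoL) (hJ : StDetector) (hR : StReads) (hT : StTVL) : StAllL := by
  intro n L a₀ B d m k f c q D s d' C ha hal hn hk hfan hs hD hf hc hd hm hq hB hRt
  classical
  have : Nonempty (Fin n) := ⟨⟨0, hn⟩⟩
  have : Nonempty (Fin L) := ⟨⟨0, by omega⟩⟩
  have : Nonempty {S : Finset (Fin n) // S.card = k} := by
    obtain ⟨S, -, hS⟩ := Finset.exists_subset_card_eq (s := (univ : Finset (Fin n))) (n := k)
      (by rw [card_univ, Fintype.card_fin]; exact hk)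
    exact ⟨⟨S, hS⟩⟩
  set T := C.numTests with hTdef
  -- the answers
  have hfin : (Set.range (fun x : Fin n × Fin n → Bool => C.reads x)).Finite :=
    Set.finite_range _
  let R := hfin.toFinset
  have hRcard : R.card ≤ 2 ^ T := by
    have := hR (Fin n × Fin n) C
    rwa [Set.ncard_eq_toFinset_card _ hfin] at this
  -- detectors
  have hdet : ∀ r : List (List Bool), ∃ E : T9h35.RW.Circuit (Fin n × Fin n), r ∈ R →
      (∀ g ∈ E.gates, g.IsMono f) ∧ E.size ≤ C.size + C.numTests + 1 ∧
      DepthLE E (D + C.numTests + 1) ∧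
      (∀ y, C.reads y = r → ∀ x, (∀ i, y i = true → x i = true) → E.eval x = false →
        C.reads x = r ∧ C.eval x = false) ∧
      ∀ x, C.reads x = r → E.eval x = true → C.eval x = true := by
    intro r
    by_cases hr : r ∈ R
    · have h1 : r ∈ Set.range (fun x : Fin n × Fin n → Bool => C.reads x) :=
        hfin.mem_toFinset.1 hr
      obtain ⟨y₀, hy₀⟩ := h1
      have hy : C.reads y₀ = r := hy₀
      obtain ⟨E, hE⟩ := hJ (Fin n × Fin n) f d' D hf C hfan hD y₀
      rw [hy] at hE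
      exact ⟨E, fun _ => hE⟩
    · exact ⟨C, fun h => absurd h hr⟩
  choose E hE using hdet
  let gi : Finset (Sym2 (Fin n)) → (Fin n × Fin n → Bool) := fun U => graphInput (gr U)
  have gi_mono : ∀ {U Z : Finset (Sym2 (Fin n))}, U ⊆ Z → ∀ p, gi U p = true → gi Z p = true :=
    fun h p hp => T9h34.P.graphInput_mono h p hp
  let Ω := {S : Finset (Fin n) // S.card = k} × EnvL (Fin n) L B d m
  have hmain := prob_main (X := Ω) R
    (fun x => C.eval (gi (low x.2.1 a₀ ∪ KT x.1.1)) = true)
    (fun x => C.eval (gi (low x.2.1 a₀)) = true)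
    (fun r x => (E r).eval (gi (low x.2.1 a₀ ∪ KT x.1.1)) = true ∧
      (E r).eval (gi (stage (toEnv a₀ x.2) B)) = false)
    (fun r x => (E r).eval (gi (stage (toEnv a₀ x.2) B)) = true)
    (fun r x => (E r).eval (gi (low x.2.1 a₀)) = true) ?_ ?_
  · have e1 : prob (fun x : Ω => C.eval (gi (low x.2.1 a₀ ∪ KT x.1.1)) = true) =
        prob (fun x : (Sym2 (Fin n) → Fin L) × {S : Finset (Fin n) // S.card = k} =>
          C.eval (graphInput (gr (low x.1 a₀ ∪ KT x.2.1))) = true) := by
      let e : Ω ≃ ((Sym2 (Fin n) → Fin L) × {S : Finset (Fin n) // S.card = k}) ×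
          ((Ix B d m → Packet (Fin n) B d m) × (Fin n → Ix B d m → Fin n)) :=
        { toFun := fun x => ((x.2.1, x.1), (x.2.2.1, x.2.2.2))
          invFun := fun y => (y.1.2, (y.1.1, (y.2.1, y.2.2)))
          left_inv := fun _ => rfl
          right_inv := fun _ => rfl }
      rw [← prob_fst (Y := (Ix B d m → Packet (Fin n) B d m) × (Fin n → Ix B d m → Fin n))
        (fun x : (Sym2 (Fin n) → Fin L) × {S : Finset (Fin n) // S.card = k} =>
          C.eval (graphInput (gr (low x.1 a₀ ∪ KT x.2.1))) = true), ← prob_equiv e]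
      rfl
    have e2 : ∀ Θ : Finset (Sym2 (Fin n)) → Prop, prob (fun x : Ω => Θ (low x.2.1 a₀)) =
        prob (fun lab : Sym2 (Fin n) → Fin L => Θ (low lab a₀)) := by
      intro Θ
      rw [prob_snd (X := {S : Finset (Fin n) // S.card = k})
        (fun ω : EnvL (Fin n) L B d m => Θ (low ω.1 a₀))]
      exact prob_fst (Y := (Ix B d m → Packet (Fin n) B d m) × (Fin n → Ix B d m → Fin n))
        (fun lab : Sym2 (Fin n) → Fin L => Θ (low lab a₀))
    have e3 : ∀ Θ : Finset (Sym2 (Fin n)) → Prop,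
        prob (fun x : Ω => Θ (stage (toEnv a₀ x.2) B)) ≤
        prob (fun lab : Sym2 (Fin n) → Fin L => Θ (low lab a₀)) + Fintype.card (Ix B d m) *
          (2 * ((L : ℝ) / a₀) * (Fintype.card (Rt B d m) : ℝ) / n) := by
      intro Θ
      rw [prob_snd (X := {S : Finset (Fin n) // S.card = k})
        (fun ω : EnvL (Fin n) L B d m => Θ (stage (toEnv a₀ ω) B))]
      have := hT (Fin n) L a₀ B d m ha hal (by rw [Fintype.card_fin]; exact hRt) Θ
      rw [Fintype.card_fin] at this
      exact this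
    set x₀ : ℝ := (k : ℝ) / (m + 1) with hx₀
    set TV : ℝ := Fintype.card (Ix B d m) *
      (2 * ((L : ℝ) / a₀) * (Fintype.card (Rt B d m) : ℝ) / n) with hTV
    have hTV0 : 0 ≤ TV := by rw [hTV]; positivity
    have hx0 : 0 ≤ x₀ := by rw [hx₀]; positivity
    set dl : ℝ := 2 * ((L : ℝ) / a₀) * (Fintype.card (Rt B d m) : ℝ) / n with hdl
    have hdl0 : 0 ≤ dl := by rw [hdl]; positivity
    have hmu0 : (0 : ℝ) ≤ (L : ℝ) / a₀ := by positivity
    have herr := errL_nonneg (s + 1) q c d (d * m + c) hmu0 hx0 hdl0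
    have hterm : ∀ r ∈ R,
        prob (fun x : Ω => (E r).eval (gi (low x.2.1 a₀ ∪ KT x.1.1)) = true ∧
          (E r).eval (gi (stage (toEnv a₀ x.2) B)) = false) +
        (prob (fun x : Ω => (E r).eval (gi (stage (toEnv a₀ x.2) B)) = true) -
          prob (fun x : Ω => (E r).eval (gi (low x.2.1 a₀)) = true)) ≤ errL (s + 1) q c d (d * m + c) ((L : ℝ) / a₀) x₀ dl + TV := by
      intro r hr
      obtain ⟨g1, g2, g3, -, -⟩ := hE r hr
      have m1 := hM n L a₀ B d m k f c q (D + T + 1) (s + 1) (E r) ha hal hn hk g1 (by omega) g3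
        (by omega) hc hd hm hq (by rw [show D + T + 1 + 1 = D + T + 2 by ring]; exact hB) hRt
      have m2 := e3 (fun U => (E r).eval (gi U) = true)
      have m3 := e2 (fun U => (E r).eval (gi U) = true)
      have m1' : prob (fun x : Ω => (E r).eval (gi (low x.2.1 a₀ ∪ KT x.1.1)) = true ∧
          (E r).eval (gi (stage (toEnv a₀ x.2) B)) = false) ≤ errL (s + 1) q c d (d * m + c) ((L : ℝ) / a₀) x₀ dl := m1
      have m2' : prob (fun x : Ω => (E r).eval (gi (stage (toEnv a₀ x.2) B)) = true) ≤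
        prob (fun lab : Sym2 (Fin n) → Fin L => (E r).eval (gi (low lab a₀)) = true) + TV := m2
      have m3' : prob (fun x : Ω => (E r).eval (gi (low x.2.1 a₀)) = true) =
        prob (fun lab : Sym2 (Fin n) → Fin L => (E r).eval (gi (low lab a₀)) = true) := m3
      linarith
    have hsum := Finset.sum_le_sum hterm
    rw [Finset.sum_const, nsmul_eq_mul] at hsum
    have hR2 : (R.card : ℝ) * (errL (s + 1) q c d (d * m + c) ((L : ℝ) / a₀) x₀ dl + TV) ≤
        2 ^ T * (errL (s + 1) q c d (d * m + c) ((L : ℝ) / a₀) x₀ dl + TV) := by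
      refine mul_le_mul_of_nonneg_right ?_ (by linarith)
      exact_mod_cast hRcard
    rw [e1] at hmain
    have e4 : prob (fun x : Ω => C.eval (gi (low x.2.1 a₀)) = true) =
        prob (fun lab : Sym2 (Fin n) → Fin L =>
          C.eval (graphInput (gr (low lab a₀))) = true) :=
      e2 (fun U => C.eval (gi U) = true)
    rw [e4] at hmain
    linarith
  · intro x hx
    by_cases h0 : C.eval (gi (low x.2.1 a₀)) = true
    · exact .inl h0
    · right
      have hr : C.reads (gi (low x.2.1 a₀)) ∈ R := hfin.mem_toFinset.2 ⟨_, rfl⟩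
      refine ⟨C.reads (gi (low x.2.1 a₀)), hr, ?_⟩
      obtain ⟨-, -, -, g4, g5⟩ := hE _ hr
      have hE1 : (E (C.reads (gi (low x.2.1 a₀)))).eval (gi (low x.2.1 a₀ ∪ KT x.1.1)) = true := by
        by_contra hcon
        have h1 := (g4 (gi (low x.2.1 a₀)) rfl (gi (low x.2.1 a₀ ∪ KT x.1.1)) (gi_mono subset_union_left)
          (Bool.eq_false_iff.2 hcon)).2
        rw [hx] at h1
        exact absurd h1 (by simp)
      by_cases hEB : (E (C.reads (gi (low x.2.1 a₀)))).eval (gi (stage (toEnv a₀ x.2) B)) = true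
      · exact .inr ⟨hEB, fun hE0 => h0 (g5 _ rfl hE0)⟩
      · exact .inl ⟨hE1, Bool.eq_false_iff.2 hEB⟩
  · intro r hr x hx
    exact eval_mono (E r) (hE r hr).1 (gi_mono (by unfold stage; exact subset_union_left)) hx

end Pool.Agent.T9h75.QL
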